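import Mathlib
import Pool.Agent.H20.JL.Mini
import Pool.Graph.R_pool_sql_team_seeded_64922ed1.X167.Sh.B

/-! # The motion of the escaping region, for rigid discs with escaping critical points only.
This file adapts `X167/Sh/A.lean` of the library. -/

set_option autoImplicit false

open Topology Filter Metric Set Polynomial MeasureTheory
open Pool.Agent.H713R3.ZA Pool.Agent.H713R5.QJ
open Pool.Agent.X167.Sh

namespace Pool.Agent.H20.KL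

open Pool.Agent.H20.JL (BX MV SRel BN_compl cont_eq fill)

/-- the conjugacy near infinity gives rigid data, with the values of the conjugacy -/
theorem rl_e (H : HH) {a : ℂ} {n M : ℕ} (N : ℕ) {B R C₁ R₁ R₃ R₇ ρ : ℝ} {ψ φ : PE n × ℂ → ℂ}
    {Ee : Finset (Fin n)} {F0 : Fin n → ℂ} {γ : ℂ → PE n} (ha : a ≠ 0) (hn : 1 ≤ n)
    (hBO : BO a n B R C₁ R₁ R₃ ψ φ) (hR7 : R₃ + C₁ ≤ R₇) (hGD : GDE a n M B R₃ ψ Ee F0 ρ γ) :
    ∃ (ρ' : ℝ) (H : ℂ → ℂ → ℂ) (Bd : Set ℂ), 0 < ρ' ∧ ρ' ≤ ρ ∧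
      RDL (n + 1) (fun t => wv a n (γ t)) ρ' (UF n R₃ R₇ φ (γ 0)) H Bd N ∧
      (∀ t ∈ ball (0 : ℂ) ρ', ∀ z ∈ UF n R₃ R₇ φ (γ 0), H t z ∈ UF n R₃ R₇ φ (γ t)) ∧
      (∀ t ∈ ball (0 : ℂ) ρ', ∀ z ∈ UF n R₃ R₇ φ (γ 0), H t z = ψ (γ t, φ (γ 0, z))) ∧
      (∀ z : ℂ, R₇ + C₁ < ‖z‖ → z ∈ UF n R₃ R₇ φ (γ 0)) ∧
      (∀ z ∈ UF n R₃ R₇ φ (γ 0), fx a n (γ 0) z ∈ UF n R₃ R₇ φ (γ 0)) := by
  classical
  obtain ⟨d1, d2, d3, d4, d5, d6, d7, d8, d9, d10⟩ := H.dic a n ha hn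
  have hPF := H.rf a n B R C₁ R₁ R₃ R₇ ρ ψ φ γ ha hn hBO hR7 hGD.hρ hGD.γd hGD.γB
  obtain ⟨ρ', hρ'0, hρ'ρ, hbad⟩ := crb N R₇ hBO hGD
  have hs1 : ball (0 : ℂ) ρ' ⊆ ball 0 ρ := ball_subset_ball hρ'ρ
  have hGD' := hGD.mono hρ'0 hρ'ρ
  have hPF' := RL_PCE_mono hPF hρ'ρ
  obtain ⟨Be, hBe, hBe'⟩ := Pool.Agent.X167.Sh.cre N ha hBO hR7 hGD'
  have hOv : ∀ c w : ℂ, Pool.Agent.H713R4.RB.Over (c, 1) w ↔ c = w := fun c w => by
    unfold Pool.Agent.H713R4.RB.Over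
    simp
  refine ⟨ρ', fun t z => ψ (γ t, φ (γ 0, z)), Be, hρ'0, hρ'ρ, ?_, ?_, ?_, ?_, ?_⟩
  · refine
      { hρ := hρ'0
        γd := d10.comp_differentiableOn hGD'.γd
        ndg := fun t _ => d5 (γ t)
        Uo := hPF'.Uo
        Hd := hPF'.Hd
        H0 := hPF'.H0
        Hi := hPF'.Hi
        inv := ?_
        conj := ?_
        Bf := hBe
        crit := ?_
        inf := ?_ }
    · intro z hz
      refine ⟨fx a n (γ 0) z, hPF'.inv z hz, ?_⟩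
      rw [d1, hOv]
    · intro t ht z hz w hw
      rw [d1, hOv] at hw
      rw [d1, hOv, ← hw]
      exact hPF'.conj t ht z hz
    · intro t ht p _ hcr j hj1 hjN w hw hov
      by_cases hp2 : p.2 = 0
      · exact absurd (d4 (γ t) j p hp2) hov.1
      · obtain ⟨l, hl⟩ := d7 (γ t) p hcr hp2
        have hp : p = (p.2 * γ t (some l), p.2) := by
          ext
          · rw [hl, mul_comm]
          · rfl
        rw [hp] at hov
        have hj := (d8 (γ t) j (γ t (some l)) (ψ (γ t, φ (γ 0, w))) p.2 hp2).1 hov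
        by_cases hlEe : l ∈ Ee
        · exact hBe' t ht l hlEe j hjN w hw hj
        · exfalso
          refine hbad t ht l hlEe j hjN ?_
          rw [hj]
          exact hPF'.img t ht w hw
    · intro t ht w _ hov
      exact absurd (d4 (γ t) N (1, 0) rfl) hov.1
  · exact fun t ht z hz => hPF'.img t ht z hz
  · exact fun t _ z _ => rfl
  · intro z hz
    have h2 : R₃ < ‖z‖ := by linarith [hBO.hC]
    refine ⟨h2, ?_⟩
    have h3 := hBO.φc (γ 0) (hGD'.γB 0 (mem_ball_self hρ'0)) z h2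
    have h4 := norm_sub_norm_le z (z - φ (γ 0, z))
    rw [sub_sub_cancel] at h4
    rw [norm_sub_rev] at h3
    linarith
  · exact hPF'.inv

/-- The target region of the escaping points is open and invariant. -/
theorem open_invE (H : HH) {a : ℂ} {n P N : ℕ} {B R C₁ R₁ R₃ R₇ r' τ : ℝ} {ψ φ : PE n × ℂ → ℂ}
    {rf : Fin n → Fin n} {x : PE n} (ha : a ≠ 0) (hn : 1 ≤ n)
    (hBO : BO a n B R C₁ R₁ R₃ ψ φ) (hR7 : R₃ + C₁ ≤ R₇) (hx : x ∈ ball (0 : PE n) B) :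
    IsOpen (BN a n P R₃ R₇ φ ∅ rf r' τ N x)ᶜ ∧
      ∀ z ∈ UF n R₃ R₇ φ x ∪ US a n P ∅ rf r' τ x,
        fx a n x z ∈ UF n R₃ R₇ φ x ∪ US a n P ∅ rf r' τ x := by
  have hPF := H.rf a n B R C₁ R₁ R₃ R₇ 1 ψ φ (fun _ : ℂ => x) ha hn hBO hR7 one_pos
    (differentiableOn_const _) (fun _ _ => hx)
  refine ⟨?_, ?_⟩
  · have e : (BN a n P R₃ R₇ φ ∅ rf r' τ N x)ᶜ = ((fx a n x)^[N]) ⁻¹' (UF n R₃ R₇ φ x) := by
      ext z
      rw [BN_compl, US_empty, union_empty]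
      rfl
    rw [e]
    exact hPF.Uo.preimage ((RL_diff a n x).continuous.iterate N)
  · intro z hz
    rw [US_empty, union_empty] at hz ⊢
    exact hPF.inv z hz

/-- Existence of the motion. -/
theorem exists_motionE (H : HH) {a : ℂ} {n P M N : ℕ} {B R C₁ R₁ R₃ R₇ r' τ ρ : ℝ}
    {ψ φ : PE n × ℂ → ℂ} {Ee : Finset (Fin n)} {rf : Fin n → Fin n}
    {F0 : Fin n → ℂ} {γ : ℂ → PE n} (ha : a ≠ 0) (hn : 1 ≤ n)
    (hBO : BO a n B R C₁ R₁ R₃ ψ φ) (hR7 : R₃ + C₁ ≤ R₇)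
    (hGD : GDE a n M B R₃ ψ Ee F0 ρ γ) :
    ∃ (ρ' : ℝ) (M : ℂ → ℂ → ℂ), 0 < ρ' ∧ ρ' ≤ ρ ∧
      MV a n P R₃ R₇ ψ φ ∅ rf r' τ N γ ρ' M := by
  classical
  obtain ⟨ρ', h, Bd, hρ', hρ'ρ, hRDL, hHim, hHF, hbig, hUFi⟩ := rl_e H N ha hn hBO hR7 hGD
  have hsubB : ball (0 : ℂ) ρ' ⊆ ball (0 : ℂ) ρ := ball_subset_ball hρ'ρ
  have h0 : (0 : ℂ) ∈ ball (0 : ℂ) ρ' := mem_ball_self hρ'
  obtain ⟨Φ, hΦ⟩ := H.motl H.root H.pro H.wn H.rbad (n + 1) (fun t => wv a n (γ t)) ρ'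
    (UF n R₃ R₇ φ (γ 0)) h Bd N (by omega) hRDL
  obtain ⟨hFAR, -⟩ := H.farp H.dic H.asyp a n N B R C₁ R₁ R₃ R₇ ρ' ψ φ γ
    (UF n R₃ R₇ φ (γ 0)) h Bd ha hn hBO hR7
    hRDL (fun t ht => hGD.γB t (hsubB ht)) (fun t ht => hGD.cen t (hsubB ht))
    (fun t ht z hz => ⟨hbig z hz, hHF t ht z (hbig z hz)⟩)
  obtain ⟨D1, D2, D3, D4, D5, D6, D7, D8, D9, D10⟩ := H.dic a n ha hn
  set U : Set ℂ := UF n R₃ R₇ φ (γ 0) with hU
  have hBNc : ∀ {x : PE n} {z : ℂ}, z ∈ (BN a n P R₃ R₇ φ ∅ rf r' τ N x)ᶜ ↔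
      (fx a n x)^[N] z ∈ UF n R₃ R₇ φ x := by
    intro x z
    rw [BN_compl, US_empty, union_empty]
  have hfull := H.fulll H.rbad (n + 1) (fun t => wv a n (γ t)) ρ' U h Bd N Φ (R₇ + C₁) h
    (by omega) hRDL hΦ hFAR
  have hW : Pool.Agent.H713R4.RB.WN (n + 1) (wv a n (γ 0)) U N =
      (BN a n P R₃ R₇ φ ∅ rf r' τ N (γ 0))ᶜ := by
    rw [D6]
    ext z
    rw [hBNc]
    rfl
  have hWB : Pool.Agent.H713R4.RB.WN (n + 1) (wv a n (γ 0)) (U \ Bd) N =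
      {z | (fx a n (γ 0))^[N] z ∈ U \ Bd} := D6 _ _ _
  simp only [hW, hWB] at hfull
  set W : Set ℂ := (BN a n P R₃ R₇ φ ∅ rf r' τ N (γ 0))ᶜ with hWdef
  set WB : Set ℂ := {z | (fx a n (γ 0))^[N] z ∈ U \ Bd} with hWBdef
  have hWo : IsOpen W := by
    rw [← hW]
    exact Pool.Agent.H713R4.RB.full_WN_open (n + 1) (wv a n (γ 0)) U hRDL.Uo N
  have hsub : WB ⊆ W := by
    intro z hz
    exact hBNc.2 hz.1
  have hfin : (W \ WB).Finite := by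
    refine (H.rbad (n + 1) N (wv a n (γ 0)) Bd (by omega) (D5 _) hRDL.Bf).subset ?_
    rintro z ⟨h1, h2⟩
    rw [D6]
    by_contra h3
    exact h2 ⟨hBNc.1 h1, h3⟩
  -- the conjugacy on the target region
  have hstep : ∀ t ∈ ball (0 : ℂ) ρ', ∀ z ∈ U, fx a n (γ t) (h t z) = h t (fx a n (γ 0) z) := by
    intro t ht z hz
    have h1 := hRDL.conj t ht z hz (fx a n (γ 0) z) (by
      rw [D1]
      exact ⟨one_ne_zero, by simp⟩)
    rw [D1] at h1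
    have h2 := h1.2
    simpa using h2
  have hUit : ∀ k : ℕ, ∀ z ∈ U, (fx a n (γ 0))^[k] z ∈ U := by
    intro k z hz
    induction k with
    | zero => exact hz
    | succ k ih => rw [Function.iterate_succ_apply']; exact hUFi _ ih
  have hUW : U ⊆ W := fun z hz => hBNc.2 (hUit N z hz)
  have hiter : ∀ t ∈ ball (0 : ℂ) ρ', ∀ z ∈ U, ∀ k : ℕ,
      (fx a n (γ t))^[k] (h t z) = h t ((fx a n (γ 0))^[k] z) := by
    intro t ht z hz k
    induction k with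
    | zero => rfl
    | succ k ih =>
      rw [Function.iterate_succ_apply', Function.iterate_succ_apply', ih,
        hstep t ht _ (hUit k z hz)]
  -- the family
  choose! M hMd hMi hMΦ hMa hMm hMc using hfull
  have hMU : ∀ t ∈ ball (0 : ℂ) ρ', ∀ z ∈ U, M t z = h t z := by
    intro t ht
    have hfin' : (U \ WB).Finite := hfin.subset (sdiff_subset_sdiff_left hUW)
    have hht : DifferentiableOn ℂ (h t) U := by
      have h2 : DifferentiableOn ℂ (fun z : ℂ => ((t, z) : ℂ × ℂ)) U := by fun_prop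
      exact hRDL.Hd.comp h2 (fun z hz => ⟨ht, hz⟩)
    apply cont_eq hRDL.Uo hfin' ((hMd t ht).continuousOn.mono hUW) hht.continuousOn
    intro z hz hzB
    rw [hMΦ t ht z hzB]
    have hzB' : z ∈ Pool.Agent.H713R4.RB.WN (n + 1) (wv a n (γ 0)) (U \ Bd) N := by
      rw [hWB]; exact hzB
    refine (hΦ.uniq z hzB' (fun s => h s z) ?_ ⟨0, h0, ?_⟩ ?_ t ht).symm
    · exact hRDL.Hd.continuousOn.comp (f := fun s : ℂ => ((s, z) : ℂ × ℂ)) (by fun_prop)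
        (fun s hs => ⟨hs, hz⟩)
    · rw [hRDL.H0 z hz, hΦ.zero z hzB']
    · intro s hs w hw
      rw [D3] at hw ⊢
      rw [hiter s hs z hz N, hw]
  obtain ⟨hthl, hcvg⟩ := fill (U := ball (0 : ℂ) ρ') (WB := WB) isOpen_ball hWo hfin hMd
    (by
      have := hΦ.diff
      rw [hWB] at this
      exact this) hMΦ
  refine ⟨ρ', M, hρ', hρ'ρ, ⟨fun t ht => ⟨hMd t ht, hMi t ht, ?_, ?_, ?_, ?_⟩, ?_, hthl, hcvg⟩⟩
  · intro z hz
    have h1 := hMm t ht z hz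
    rw [D6] at h1
    obtain ⟨w, hw, hwz⟩ := h1
    rw [hBNc]
    have h2 := hHim t ht w hw
    rw [hwz] at h2
    exact h2
  · intro z hz
    have hz' : fx a n (γ 0) z ∈ W := by
      rw [hWdef, hBNc, ← Function.iterate_succ_apply, Function.iterate_succ_apply']
      exact hUFi _ (hBNc.1 hz)
    have h1 := hMc t ht z hz (fx a n (γ 0) z) hz' (by
      rw [D1]
      exact ⟨one_ne_zero, by simp⟩)
    rw [D1] at h1
    have h2 := h1.2
    simpa using h2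
  · intro z hz
    rw [hMU t ht z hz]
    exact hHF t ht z hz
  · intro i hi
    exact absurd hi (Finset.notMem_empty i)
  · apply cont_eq hWo hfin ((hMd 0 h0).continuousOn) continuousOn_id
    intro z hz hzB
    have hzB' : z ∈ Pool.Agent.H713R4.RB.WN (n + 1) (wv a n (γ 0)) (U \ Bd) N := by
      rw [hWB]; exact hzB
    rw [hMΦ 0 h0 z hzB, hΦ.zero z hzB']
    rfl

end Pool.Agent.H20.KL
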