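import Mathlib
import Pool.Agent.H20.KL.EMot
import Pool.Graph.R_seed8.H713R5.QJ.Core7

/-! # The local step for the shift locus, linear version. This file combines `X167/Sh/B.lean` of the
library with the minimum principle of `Pool.Agent.H20.JL.Core`. -/

set_option autoImplicit false

open Topology Filter Metric Set Polynomial MeasureTheory
open Pool.Agent.H713R3.ZA Pool.Agent.H713R5.QJ
open Pool.Agent.X167.Sh

namespace Pool.Agent.H20.KL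

open Pool.Agent.H20.JL (BX MV BX_close C0 FN_base FN_ge FN exists_tests big_UF U_sub_W EY ST bet_id
  BX_id Dl_tri min_exists min_absurd bet SF)

/-- The local step: if the filled Julia set of `x₁` has small area then another critical point can
be made to escape nearby. -/
def StCE : Prop :=
  ∀ (a : ℂ) (n : ℕ) (B : ℝ), a ≠ 0 → 1 ≤ n → 0 < B → ∃ c₁ C₂ : ℝ, 0 < c₁ ∧ 0 < C₂ ∧
    ∀ (x₁ : PE n) (s : ℝ), 0 < s →
      (∀ x : PE n, Dl a n x₁ x ≤ s ^ 2 → x ∈ ball (0 : PE n) B) →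
      volume {z : ℂ | ¬ Esc (fx a n x₁) z} < ENNReal.ofReal (c₁ * s) →
      (∃ j : Fin n, ¬ Esc (fx a n x₁) (x₁ (some j))) →
      ∃ x : PE n, Dl a n x₁ x < s ^ 2 ∧
        volume {z : ℂ | ¬ Esc (fx a n x) z} < ENNReal.ofReal (C₂ * s) ∧
        (∀ i : Fin n, Esc (fx a n x₁) (x₁ (some i)) → Esc (fx a n x) (x (some i))) ∧
        ∃ j : Fin n, ¬ Esc (fx a n x₁) (x₁ (some j)) ∧ Esc (fx a n x) (x (some j))

theorem core_stepE (H : HH) : StCE := by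
  classical
  intro a n B ha hn hB0
  have hpi := Real.pi_pos
  obtain ⟨R, C₁, R₁, R₃, ψ, φ, hb⟩ := exists_boett H.bsum H.inv ha hn hB0
  have hb1 := hb.hR; have hb2 := hb.hC; have hb3 := hb.hR₁; have hb4 := hb.hR₃
  set R₇ : ℝ := R₃ + C₁ with hR₇
  obtain ⟨R₄, R₅, rg, c₀, v, hR₄, hR₄0, hR₅, hrg, hc₀, hv, hgain⟩ :=
    H.gainp H.dic a n B (R₇ + 3 * C₁) ha hn hB0
  obtain ⟨CC, hCC, hclose⟩ := BX_close H ha hn hb
  obtain ⟨κ, hκ⟩ : ∃ κ : ℝ, κ = 1 / (2 * (CC + 1)) := ⟨_, rfl⟩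
  have hκ0 : 0 < κ := by rw [hκ]; positivity
  have hκC : 2 * (CC * κ ^ 2) ≤ 1 / 4 := by
    rw [hκ, div_pow, one_pow, mul_one_div, mul_div_assoc', div_le_div_iff₀ (by positivity)
      (by norm_num)]
    nlinarith [sq_nonneg (CC - 1)]
  obtain ⟨qa, hqa⟩ : ∃ qa : ℝ, R₇ + C₁ < qa := ⟨R₇ + C₁ + 1, by linarith⟩
  obtain ⟨qb, hqab⟩ : ∃ qb : ℝ, qa < qb := ⟨qa + 1, by linarith⟩
  obtain ⟨qc, hqbc⟩ : ∃ qc : ℝ, qb < qc := ⟨qb + 1, by linarith⟩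
  obtain ⟨qe, hqce⟩ : ∃ qe : ℝ, qc < qe := ⟨qc + 1, by linarith⟩
  have hqa0 : 0 < qa := by linarith
  obtain ⟨K₀, hK₀⟩ : ∃ K₀ : ℝ, K₀ = C0 qa (2 * n) := ⟨_, rfl⟩
  have hK₀0 : 0 ≤ K₀ := by
    rw [hK₀]
    unfold C0
    exact Finset.sum_nonneg fun j _ => by positivity
  obtain ⟨c₁, hc₁⟩ : ∃ c₁ : ℝ, c₁ = Real.pi * κ / (1 + K₀) := ⟨_, rfl⟩
  have hc₁0 : 0 < c₁ := by rw [hc₁]; positivity
  have hc₁e : (1 + K₀) * c₁ = Real.pi * κ := by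
    rw [hc₁]
    field_simp
  refine ⟨c₁, 2 * Real.pi * κ, hc₁0, by positivity, ?_⟩
  rintro x₁ s hs hDB hvol ⟨j₀, hj₀b⟩
  by_contra hno
  push Not at hno
  set n₀ : ℝ := s ^ 2 with hn₀def
  have hn₀ : 0 < n₀ := by positivity
  obtain ⟨ε, hεdef⟩ : ∃ ε : ℝ, ε = κ * s := ⟨_, rfl⟩
  have hε : 0 < ε := by rw [hεdef]; positivity
  obtain ⟨a₁, ha₁⟩ : ∃ a₁ : ℝ, a₁ = 2 * Real.pi * ε := ⟨_, rfl⟩
  have ha₁0 : 0 < a₁ := by rw [ha₁]; positivity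
  have ha₁' : 2 * Real.pi * κ * s = a₁ := by rw [ha₁, hεdef]; ring
  rw [ha₁'] at hno
  set Ee : Finset (Fin n) := Finset.univ.filter
    (fun i => Esc (fx a n x₁) (x₁ (some i))) with hEe
  have hEm : ∀ i, i ∈ Ee ↔ Esc (fx a n x₁) (x₁ (some i)) := by
    intro i; simp [hEe]
  have hj₀ : j₀ ∉ Ee := fun h => hj₀b ((hEm j₀).mp h)
  have hmax : ∀ x : PE n, Dl a n x₁ x < n₀ →
      volume {z : ℂ | ¬ Esc (fx a n x) z} < ENNReal.ofReal a₁ →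
      (∀ i ∈ Ee, Esc (fx a n x) (x (some i))) →
      ∀ j, j ∉ Ee → ¬ Esc (fx a n x) (x (some j)) := by
    intro x h1 h2 h3 j hj
    exact hno x h1 h2 (fun i hi => h3 i ((hEm i).mpr hi)) j (fun h => hj ((hEm j).mpr h))
  obtain ⟨a₀, ha₀⟩ : ∃ a₀ : ℝ, a₀ = c₁ * s := ⟨_, rfl⟩
  have ha₀0 : 0 < a₀ := by rw [ha₀]; positivity
  have ha₀e : (1 + K₀) * a₀ = a₁ / 2 := by
    rw [ha₀, ← mul_assoc, hc₁e, ha₁, hεdef]
    ring
  have ha₀n : a₀ < a₁ := by nlinarith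
  rw [← ha₀] at hvol
  have hx₁B : x₁ ∈ ball (0 : PE n) B := hDB x₁ (by simp [Dl, hn₀.le])
  set m₀ : ℝ := (volume {z : ℂ | ¬ Esc (fx a n x₁) z}).toReal with hm₀
  have hm₀0 : 0 ≤ m₀ := ENNReal.toReal_nonneg
  have hm₀f : volume {z : ℂ | ¬ Esc (fx a n x₁) z} = ENNReal.ofReal m₀ :=
    (ENNReal.ofReal_toReal (hvol.trans_le le_top).ne).symm
  have hm₀a : m₀ < a₀ := by
    rw [hm₀f] at hvol
    exact (ENNReal.ofReal_lt_ofReal_iff ha₀0).mp hvol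
  set η₀ : ℝ := (a₀ - m₀) / 3 with hη₀
  have hη₀0 : 0 < η₀ := by rw [hη₀]; linarith
  -- neighbourhood of good starting points
  set G₁ : Set (PE n) := {x | Dl a n x₁ x < n₀ / 8} with hG₁
  have hG₁o : IsOpen G₁ := isOpen_lt (Dl_continuous a n x₁) continuous_const
  have hx₁G : x₁ ∈ G₁ := by
    have h1 : Dl a n x₁ x₁ = 0 := by simp [Dl]
    show Dl a n x₁ x₁ < n₀ / 8
    rw [h1]; positivity
  have hG₁D : ∀ x ∈ G₁, Dl a n x₁ x < n₀ := by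
    intro x h1
    have h2 : Dl a n x₁ x < n₀ / 8 := h1
    linarith
  -- the time `M`
  obtain ⟨M, hM⟩ : ∃ M : ℕ, ∀ i ∈ Ee, R₃ + 2 * C₁ < ‖(fx a n x₁)^[M] (x₁ (some i))‖ := by
    have h1 : ∀ᶠ M : ℕ in atTop, ∀ i ∈ Ee, R₃ + 2 * C₁ < ‖(fx a n x₁)^[M] (x₁ (some i))‖ := by
      rw [Filter.eventually_all_finset]
      intro i hi
      exact ((hEm i).mp hi).eventually (eventually_gt_atTop _)
    exact h1.exists
  obtain ⟨σ, hσ, husc⟩ := usc hb hR₇.symm.le hx₁B hη₀0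
  set W : Set (PE n) := (G₁ ∩ ball x₁ σ) ∩
    ⋂ i ∈ Ee, {x : PE n | R₃ + 2 * C₁ < ‖(fx a n x)^[M] (x (some i))‖} with hW
  have hWo : IsOpen W := by
    apply (hG₁o.inter isOpen_ball).inter
    apply isOpen_biInter_finset
    intro i _
    exact isOpen_lt continuous_const (crit_cont a n M i).norm
  have hx₁W : x₁ ∈ W := by
    refine ⟨⟨hx₁G, mem_ball_self hσ⟩, ?_⟩
    simp only [mem_iInter]
    exact hM
  have hWM : ∀ x ∈ W, ∀ i ∈ Ee, R₃ + 2 * C₁ < ‖(fx a n x)^[M] (x (some i))‖ := by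
    rintro x ⟨-, h⟩ i hi
    exact mem_iInter₂.mp h i hi
  have hWv : ∀ x ∈ W, volume {z : ℂ | ¬ Esc (fx a n x) z} ≤ ENNReal.ofReal (m₀ + η₀) := by
    rintro x ⟨⟨-, h⟩, -⟩
    calc volume {z : ℂ | ¬ Esc (fx a n x) z}
        ≤ volume {z : ℂ | ¬ Esc (fx a n x₁) z} + ENNReal.ofReal η₀ := husc x h
      _ = ENNReal.ofReal (m₀ + η₀) := by
        rw [hm₀f, ← ENNReal.ofReal_add hm₀0 hη₀0.le]
  have hWB : ∀ x ∈ W, x ∈ ball (0 : PE n) B := fun x hx => hDB x (hG₁D x hx.1.1).le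
  -- the domain
  set O : Set (PE n) := OO a n 1 M B R₃ ∅ Ee with hO
  obtain ⟨hOo, -⟩ := H.nud H.ko0 H.ko1 H.ko2 H.ko3 a n 1 M B R₃ ∅ Ee id (fun _ => 0) ha hn one_pos
    (rfp n)
  have hx₁O : x₁ ∈ O := ⟨hx₁B, by simp, fun i hi => by have := hM i hi; linarith⟩
  set Ω : Set (PE n) := connectedComponentIn O x₁ with hΩ
  have hΩo : IsOpen Ω := hOo.connectedComponentIn
  have hΩc : IsPreconnected Ω := isPreconnected_connectedComponentIn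
  have hΩO : Ω ⊆ O := connectedComponentIn_subset O x₁
  have hx₁Ω : x₁ ∈ Ω := mem_connectedComponentIn hx₁O
  -- the field
  have hφdiff : ∀ i ∈ Ee, DifferentiableOn ℂ
      (fun x : PE n => φ (x, (fx a n x)^[M] (x (some i)))) Ω := fun i hi =>
    gdp_phi hb i (fun x hx => (hΩO hx).1) (fun x hx => (hΩO hx).2.2 i hi)
  set D : Fin n → PE n → (PE n →L[ℂ] ℂ) := fun i x =>
    if i ∈ Ee then fderiv ℂ (fun x : PE n => φ (x, (fx a n x)^[M] (x (some i)))) x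
    else if i = j₀ then fderiv ℂ (cf a n n) x else 0 with hD
  have hDd : ∀ i (w : PE n), DifferentiableOn ℂ (fun x => D i x w) Ω := by
    intro i w
    simp only [hD]
    by_cases h2 : i ∈ Ee
    · simp only [if_pos h2]
      exact Pool.Agent.Helper540.differentiableOn_fderiv_apply hΩo (hφdiff i h2) w
    · by_cases h3 : i = j₀
      · simp only [if_neg h2, if_pos h3]
        exact Pool.Agent.Helper540.differentiableOn_fderiv_apply hΩo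
          (cf_diff a n n).differentiableOn w
      · simp only [if_neg h2, if_neg h3]
        exact differentiableOn_const 0
  obtain ⟨X, hXd, hXne, hXk⟩ := exists_field H.cross hΩo ⟨x₁, hx₁Ω⟩ D hDd
  have hX2 : ∀ x ∈ Ω, ∀ i ∈ Ee,
      fderiv ℂ (fun x : PE n => φ (x, (fx a n x)^[M] (x (some i)))) x (X x) = 0 := by
    intro x hx i hi
    have := hXk x hx i
    simp only [hD, if_pos hi] at this
    exact this
  have hX3 : ∀ x ∈ Ω, fderiv ℂ (cf a n n) x (X x) = 0 := by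
    intro x hx
    have := hXk x hx j₀
    simp only [hD, if_neg hj₀, if_true] at this
    exact this
  -- a coefficient which moves
  obtain ⟨x₃, hx₃, hXx₃, hx₃i⟩ := exists_good H.iden hΩo hXd hXne
  obtain ⟨j, hj⟩ : ∃ j : ℕ, fderiv ℂ (cf a n j) x₃ (X x₃) ≠ 0 := by
    by_contra hcon
    push Not at hcon
    exact hXx₃ (H.ndeg n a x₃ (X x₃) hn ha hx₃i hcon)
  have hjn : j < n + 2 := by
    by_contra hcon
    apply hj
    have h1 : cf a n j = fun _ => 0 := by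
      funext x
      exact coeff_eq_zero_of_natDegree_lt (by have := natDegree_fam_le a n x; omega)
    rw [h1]
    simp
  set f : PE n → ℂ := fun x => fderiv ℂ (cf a n j) x (X x) with hf
  have hfd : DifferentiableOn ℂ f Ω := speed_diff j hΩo hXd
  -- the starting point
  obtain ⟨x₂, hx₂Ω, hx₂W, hfx₂⟩ : ∃ x₂ ∈ Ω, x₂ ∈ W ∧ f x₂ ≠ 0 := by
    by_contra hcon
    push Not at hcon
    have h2 : ∀ᶠ x in 𝓝 x₁, f x = 0 := by
      filter_upwards [hΩo.mem_nhds hx₁Ω, hWo.mem_nhds hx₁W] with x e2 e3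
      exact hcon x e2 e3
    exact hj (H.iden (PE n) Ω f hΩo hΩc hfd x₁ hx₁Ω h2 x₃ hx₃)
  have hx₂O : x₂ ∈ O := hΩO hx₂Ω
  have hx₂B : x₂ ∈ ball (0 : PE n) B := hx₂O.1
  -- the critical points of `Ee` escape on Ω
  have hescE : ∀ x ∈ Ω, ∀ i ∈ Ee, Esc (fx a n x) (x (some i)) := by
    intro x hx i hi
    exact esc_of_large hb (hΩO hx).1 (k := M) (by have := (hΩO hx).2.2 i hi; linarith)
  set F0 : Fin n → ℂ := fun i => φ (x₂, (fx a n x₂)^[M] (x₂ (some i))) with hF0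
  have hF0n : ∀ i ∈ Ee, R₃ + C₁ < ‖F0 i‖ := by
    intro i hi
    have h1 := hWM x₂ hx₂W i hi
    have h2 := hb.φc x₂ hx₂B ((fx a n x₂)^[M] (x₂ (some i))) (by linarith)
    have h3 := norm_sub_norm_le ((fx a n x₂)^[M] (x₂ (some i)))
      (φ (x₂, (fx a n x₂)^[M] (x₂ (some i))))
    rw [norm_sub_rev] at h3
    show R₃ + C₁ < ‖φ (x₂, (fx a n x₂)^[M] (x₂ (some i)))‖
    linarith
  obtain ⟨r₁, r₂, -, hKL⟩ := H.ko3 H.ko0 a n 1 B (1 / 2) (1 / 2) 1 ha hn one_pos hB0 (by norm_num)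
    (by norm_num) one_pos
  have hr₁ := hKL.r1
  set r' : ℝ := r₁ / 2 with hr'
  have hr'0 : 0 < r' := by positivity
  have hr'₁ : r' < r₁ := by rw [hr']; linarith
  -- the leaf
  set L' : Set (PE n) := LL2 a n 1 M 0 ψ ∅ Ee id (fun _ => 0) F0 (fun _ => 0) x₁ n₀ r' x₂
    with hL'
  obtain ⟨hL'c, hL'O⟩ := H.cptq H.ko0 H.ko1 H.ko2 H.ko3 H.nud a n 1 M 0 B R C₁ R₁ R₃ (1 / 2) (1 / 2)
    r₁ r₂ ψ φ ∅ Ee id (fun _ => 0) F0 (fun _ => 0) x₁ x₂ n₀ r' ha hn one_pos hb hKL (rfp n)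
    (by simp) hF0n (fun x hx => hDB x hx) (by linarith)
  have hL'm : ∀ x : PE n, x ∈ L' ↔ Dl a n x₁ x ≤ n₀ ∧
      ∀ i ∈ Ee, (fx a n x)^[M] (x (some i)) = ψ (x, F0 i) := by
    intro x
    constructor
    · rintro ⟨h1, h2, -⟩
      exact ⟨h1, h2⟩
    · rintro ⟨h1, h2⟩
      exact ⟨h1, h2, by simp, by simp⟩
  set L : Set (PE n) := L' ∩ Ω with hL
  have hLc : IsCompact L := by
    have h2 : L = L' \ (O \ Ω) := by
      ext x
      simp only [hL, mem_inter_iff, Set.mem_sdiff, not_and, not_not]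
      constructor
      · rintro ⟨e1, e2⟩; exact ⟨e1, fun _ => e2⟩
      · rintro ⟨e1, e2⟩; exact ⟨e1, e2 (hL'O e1)⟩
    rw [h2]
    exact hL'c.diff (diff_open hOo x₁)
  have hx₂L : x₂ ∈ L := by
    refine ⟨(hL'm x₂).mpr ⟨(hG₁D x₂ hx₂W.1.1).le, fun i hi => ?_⟩, hx₂Ω⟩
    exact (hb.ψφ x₂ hx₂B _ (by have := hWM x₂ hx₂W i hi; linarith)).symm
  -- the time `N`
  obtain ⟨N, hN⟩ := BE_lim hb hR₇.symm.le hx₂B hη₀0
  have hAN₂ : (volume (BN a n 1 R₃ R₇ φ ∅ id r' 1 N x₂)).toReal ≤ m₀ + 2 * η₀ := by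
    have h1 := hN N le_rfl
    have h2 : (volume {z : ℂ | ¬ Esc (fx a n x₂) z}).toReal ≤ m₀ + η₀ :=
      ENNReal.toReal_le_of_le_ofReal (by positivity) (hWv x₂ hx₂W)
    rw [BE_eq]
    linarith
  have hLO : L ⊆ O := fun x hx => hL'O hx.1
  have hlsc := H.lscp H.ko0 H.ko1 H.ko2 H.ko3 a n 1 M N B R C₁ R₁ R₃ R₇ (1 / 2) (1 / 2) r₁ r₂
    r' 1 ψ φ ∅ Ee id L ha hn one_pos hb hR₇.symm.le hKL hr'0 hr'₁ one_pos hLO
    (by simp)
  -- the facts which hold at the points of small energy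
  have hSFt : ∀ p : PE n, p ∈ ball (0 : PE n) B → SF a n 1 B (1 / 2) (1 / 2) ∅ p := fun p hp =>
    ⟨hp, by simp, by simp, by simp⟩
  have hfacts : ∀ p ∈ L, Dl a n x₁ p < n₀ →
      (volume (BN a n 1 R₃ R₇ φ ∅ id r' 1 N p)).toReal < a₁ →
      ∀ l, l ∉ Ee → ¬ Esc (fx a n p) (p (some l)) := by
    intro p hp hpD' hpA
    have hpΩ : p ∈ Ω := hp.2
    have hpO : p ∈ O := hΩO hpΩ
    have hpB : p ∈ ball (0 : PE n) B := hpO.1
    rw [BE_eq] at hpA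
    apply hmax p hpD' _ (hescE p hpΩ)
    calc volume {z : ℂ | ¬ Esc (fx a n p) z}
        ≤ volume (BE a n R₃ R₇ φ N p) := measure_mono (notEsc_sub hb hpB N)
      _ = ENNReal.ofReal (volume (BE a n R₃ R₇ φ N p)).toReal :=
        (ENNReal.ofReal_toReal (BE_fin hb hR₇.symm.le hpB N)).symm
      _ < ENNReal.ofReal a₁ := (ENNReal.ofReal_lt_ofReal_iff ha₁0).mpr hpA
  have hD₂ : Dl a n x₁ x₂ < n₀ := hG₁D x₂ hx₂W.1.1
  have hm₃ : m₀ + 3 * η₀ = a₀ := by rw [hη₀]; ring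
  obtain ⟨hWo, hUi⟩ := open_invE (P := 1) (N := N) (r' := r') (τ := 1) (rf := id) H ha hn hb
    (le_refl (R₃ + C₁)) hx₂B
  have hUW : UF n R₃ R₇ φ x₂ ∪ US a n 1 ∅ id r' 1 x₂ ⊆ (BN a n 1 R₃ R₇ φ ∅ id r' 1 N x₂)ᶜ :=
    U_sub_W hUi
  have hUFW : UF n R₃ R₇ φ x₂ ⊆ (BN a n 1 R₃ R₇ φ ∅ id r' 1 N x₂)ᶜ :=
    fun z hz => hUW (Or.inl hz)
  obtain ⟨w, u, hw, hu, hw2, hu2⟩ := exists_tests hWo (R₀ := R₇ + C₁) (by linarith)
    (fun z hz => hUFW (big_UF hb le_rfl hx₂B hz)) hqa hqab hqbc hqce hη₀0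
  rw [compl_compl] at hw2 hu2
  have hbase := FN_base (m := 2 * n) hqa0 hqab hqbc hqce hε hw2 hu2
  rw [← hK₀] at hbase
  have hfc : ContinuousOn f L := hfd.continuousOn.mono inter_subset_right
  -- the small parameter
  obtain ⟨Mf, hMf⟩ := hLc.exists_bound_of_continuousOn hfc
  have hlog : ∀ x ∈ L, f x ≠ 0 → Real.log ‖f x‖ ≤ |Mf| := by
    intro x hx hfx
    have h1 : 0 < ‖f x‖ := norm_pos_iff.2 hfx
    have h2 := Real.log_le_sub_one_of_pos h1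
    have h3 := (hMf x hx).trans (le_abs_self Mf)
    linarith
  obtain ⟨DD, hDD⟩ : ∃ DD : ℝ, DD = |Mf| + |Real.log ‖f x₂‖| + 1 := ⟨_, rfl⟩
  have hDD0 : 0 < DD := by rw [hDD]; positivity
  obtain ⟨δ, hδdef⟩ : ∃ δ : ℝ, δ = a₁ / (4 * DD) := ⟨_, rfl⟩
  have hδ : 0 < δ := by rw [hδdef]; positivity
  have hδDD : δ * DD = a₁ / 4 := by rw [hδdef]; field_simp
  have hEn : ∀ x ∈ L, f x ≠ 0 →
      EY a n 1 R₃ R₇ φ ∅ id r' 1 N f qa qb qc qe ε δ w u x₂ (fun z => z) +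
        δ * Real.log ‖f x‖ < a₁ := by
    intro x hx hfx
    have h1 := hlog x hx hfx
    have h2 := neg_abs_le (Real.log ‖f x₂‖)
    have h3 : Real.log ‖f x‖ - Real.log ‖f x₂‖ ≤ DD := by rw [hDD]; linarith
    have h4 := mul_le_mul_of_nonneg_left h3 hδ.le
    rw [hδDD] at h4
    have h5 : K₀ * ((volume (BN a n 1 R₃ R₇ φ ∅ id r' 1 N x₂)).toReal + η₀) ≤ K₀ * a₀ :=
      mul_le_mul_of_nonneg_left (by linarith) hK₀0
    have h6 : (1 + K₀) * a₀ = a₀ + K₀ * a₀ := by ring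
    unfold EY
    rw [h6] at ha₀e
    have h7 : δ * (Real.log ‖f x‖ - Real.log ‖f x₂‖) =
      δ * Real.log ‖f x‖ - δ * Real.log ‖f x₂‖ := by ring
    rw [h7] at h4
    linarith
  have hLB : ∀ x ∈ L, x ∈ ball (0 : PE n) B := fun x hx => (hLO hx).1
  obtain ⟨p, Ψ, hpS, hpmin⟩ := min_exists (n₁ := n₀ / 2) (n₀ := n₀) (a₁ := a₁) (x₁ := x₁) (f := f)
    (δ := δ) H ha hn one_pos hb le_rfl hKL hr'0 hr'₁ (hSFt x₂ hx₂B) hWo hUi hqa hqab
    hqbc hqce hε hw hu hLc hLB hx₂L hfc hfx₂ hlsc (fun x hx hfx hxD hxA =>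
      ⟨hSFt x (hLB x hx), by simp⟩) (by linarith) (fun x Φ hxS => by
      have h1 := hclose R₇ le_rfl 1 N ∅ id r' 1 qa qb qc qe ε hqa hqab hqbc hqce hε x₂ hx₂B hWo hUFW
        x (hLB x hxS.1) hxS.2.1 Φ hxS.2.2.2.1 hxS.2.2.2.2
      have h2 := Dl_tri a n x₁ x₂ x
      have h3 : Dl a n x₁ x₂ < n₀ / 8 := hx₂W.1.1
      have h4 : 2 * (CC * ε ^ 2) ≤ n₀ / 4 := by
        have h5 : 2 * (CC * ε ^ 2) = 2 * (CC * κ ^ 2) * n₀ := by rw [hεdef, hn₀def]; ring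
        rw [h5]
        have := mul_le_mul_of_nonneg_right hκC hn₀.le
        linarith
      linarith) hδ hEn
  have hpL : p ∈ L := hpS.1
  have hpf : f p ≠ 0 := hpS.2.2.1
  have hσ₂ : (x₂, fun z : ℂ => z) ∈
      ST a n 1 R₃ R₇ ψ φ ∅ id r' 1 N x₂ L f qa qb qc qe ε := by
    refine ⟨hx₂L, rfl, hfx₂, BX_id hb hx₂B, ?_⟩
    intro j hj
    show ‖bet qa qb qc qe ε (fun z : ℂ => z) j‖ ≤ 1
    rw [bet_id hqa0 hqab hqbc hqce hε (Finset.mem_Icc.1 hj).1, norm_zero]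
    exact zero_le_one
  have hple := hpmin x₂ (fun z => z) hσ₂
  have hpE := hEn p hpL hpf
  have hplt : EY a n 1 R₃ R₇ φ ∅ id r' 1 N f qa qb qc qe ε δ w u p Ψ + δ * Real.log ‖f p‖ < a₁ := by
    linarith
  have hWa : ∀ z : ℂ, qa ≤ ‖z‖ → z ∈ (BN a n 1 R₃ R₇ φ ∅ id r' 1 N x₂)ᶜ := fun z hz =>
    hUFW (big_UF hb le_rfl hx₂B (by linarith))
  have hpFN := (FN_ge hWo hpS.2.2.2.1.hol hpS.2.2.2.1.inj hWa hqa0 hqab hqbc hqce hε hw hu
    hpS.2.2.2.2).1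
  have hpA : (volume (BN a n 1 R₃ R₇ φ ∅ id r' 1 N p)).toReal < a₁ := by
    unfold EY at hplt
    linarith
  have hpD : Dl a n x₁ p < n₀ := by
    have h1 := hclose R₇ le_rfl 1 N ∅ id r' 1 qa qb qc qe ε hqa hqab hqbc hqce hε x₂ hx₂B hWo hUFW
      p (hLB p hpL) hpS.2.1 Ψ hpS.2.2.2.1 hpS.2.2.2.2
    have h2 := Dl_tri a n x₁ x₂ p
    have h3 : Dl a n x₁ x₂ < n₀ / 8 := hx₂W.1.1
    have h4 : 2 * (CC * ε ^ 2) ≤ n₀ / 4 := by
      have h5 : 2 * (CC * ε ^ 2) = 2 * (CC * κ ^ 2) * n₀ := by rw [hεdef, hn₀def]; ring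
      rw [h5]
      have := mul_le_mul_of_nonneg_right hκC hn₀.le
      linarith
    linarith
  have hpbad := hfacts p hpL hpD hpA
  have hpΩ : p ∈ Ω := hpL.2
  have hpO : p ∈ O := hΩO hpΩ
  have hpB : p ∈ ball (0 : PE n) B := hpO.1
  have hpe := ((hL'm p).mp hpL.1).2
  -- the curve
  have hDl2 : ∀ x y : PE n, Dl a n x y = ∑ j : Fin (n + 2), ‖cf a n j y - cf a n j x‖ ^ 2 := by
    intro x y
    rw [Dl_eq, Finset.sum_range]
  set Ω' : Set (PE n) := {x | x ∈ Ω ∧ f x ≠ 0} ∩ {x | Dl a n x₁ x < n₀} with hΩ'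
  have hΩ'o : IsOpen Ω' :=
    (hfd.continuousOn.isOpen_inter_preimage hΩo isOpen_ne).inter
      (isOpen_lt (Dl_continuous a n x₁) continuous_const)
  have hpΩ' : p ∈ Ω' := ⟨⟨hpΩ, hpf⟩, hpD⟩
  have hΩ'Ω : Ω' ⊆ Ω := fun x hx => hx.1.1
  obtain ⟨ρ, hρ, hflow⟩ := H.flow (PE n) Ω' {p} X hΩ'o isCompact_singleton
    (singleton_subset_iff.mpr hpΩ') (hXd.mono hΩ'Ω)
  obtain ⟨γ, hγ0, hγ⟩ := hflow p rfl
  have h0 : (0 : ℂ) ∈ ball (0 : ℂ) ρ := mem_ball_self hρ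
  have hγΩ : ∀ t ∈ ball (0 : ℂ) ρ, γ t ∈ Ω := fun t ht => hΩ'Ω (hγ t ht).1
  have hγB : ∀ t ∈ ball (0 : ℂ) ρ, γ t ∈ ball (0 : PE n) B := fun t ht => (hΩO (hγΩ t ht)).1
  have hGD : GDE a n M B R₃ ψ Ee F0 ρ γ :=
    { hρ := hρ
      γd := fun t ht => (hγ t ht).2.differentiableAt.differentiableWithinAt
      γB := hγB
      F1 := fun i hi => by have := hF0n i hi; linarith
      esc := by
        intro t ht i hi
        have h1 := gdp_along hΩo (hφdiff i hi) (fun s hs => (hγ s hs).2) hγΩ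
          (fun s hs => hX2 _ (hγΩ s hs) i hi) t ht
        have hE0 : R₃ < ‖(fx a n (γ 0))^[M] (γ 0 (some i))‖ := (hΩO (hγΩ 0 h0)).2.2 i hi
        have h4 : φ (γ 0, (fx a n (γ 0))^[M] (γ 0 (some i))) = F0 i := by
          have e1 := hb.ψφ (γ 0) (hγB 0 h0) _ hE0
          have e2 : R₁ < ‖F0 i‖ := by have := hF0n i hi; linarith
          refine hb.ψi (γ 0) (hγB 0 h0) (φ_norm hb (hγB 0 h0) hE0) e2 ?_
          show ψ (γ 0, φ (γ 0, (fx a n (γ 0))^[M] (γ 0 (some i)))) = ψ (γ 0, F0 i)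
          rw [e1, hγ0]
          exact hpe i hi
        have h5 := hb.ψφ (γ t) (hγB t ht) _ ((hΩO (hγΩ t ht)).2.2 i hi)
        rw [← h5]
        have h6 : φ (γ t, (fx a n (γ t))^[M] (γ t (some i))) = F0 i := by
          rw [← h4]; exact h1
        rw [h6]
      cen := fun t ht => gdp_along isOpen_univ (cf_diff a n n).differentiableOn
        (fun s hs => (hγ s hs).2) (fun _ _ => mem_univ _) (fun s hs => hX3 _ (hγΩ s hs)) t ht
      bad := by rw [hγ0]; exact hpbad }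
  obtain ⟨rl, hrl, hrlρ, hloc⟩ := loc H N ha hn hb hR₇.symm.le hGD hR₄ hR₅ hc₀ hv hgain
  obtain ⟨rm, Mt, hrm, hrmρ, hMV⟩ := exists_motionE (P := 1) (N := N) (r' := r') (τ := 1)
    (rf := id) H ha hn hb (le_refl (R₃ + C₁)) hGD
  set r₀ : ℝ := min rl rm with hr₀def
  have hr₀ : 0 < r₀ := lt_min hrl hrm
  have hr₀l : r₀ ≤ rl := min_le_left _ _
  have hr₀m : r₀ ≤ rm := min_le_right _ _
  have hr₀ρ : r₀ ≤ ρ := hr₀l.trans hrlρ
  have hsub : ∀ t ∈ ball (0 : ℂ) r₀, t ∈ ball (0 : ℂ) ρ := fun t ht => ball_subset_ball hr₀ρ ht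
  have hγd : DifferentiableOn ℂ γ (ball 0 r₀) := fun t ht =>
    (hγ t (hsub t ht)).2.differentiableAt.differentiableWithinAt
  refine min_absurd hb le_rfl hx₂B hWo hUFW hqa hqab hqbc hqce hε hw hu hc₀ hpB hpS hpmin
    (by rw [← ha₁]; exact hplt) (by simp) hr₀ hγ0 hγd ?_ (hMV.mono hr₀m)
    (hfd.comp hγd (fun t ht => hγΩ t (hsub t ht))) ⟨⟨j, hjn⟩, ?_⟩ ?_
  · intro t ht
    have ht' := hsub t ht
    have e0 := (hγ t ht').1
    refine ⟨⟨(hL'm _).mpr ⟨(e0.2 : Dl a n x₁ (γ t) < n₀).le, fun i hi => hGD.esc t ht' i hi⟩,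
      e0.1.1⟩, e0.1.2, ?_⟩
    rw [hGD.cen t ht', hγ0]
  · have e1 := (((cf_diff a n j) (γ 0)).hasFDerivAt.comp_hasDerivAt 0 (hγ 0 h0).2).deriv
    show deriv (fun t => cf a n j (γ t)) 0 ≠ 0
    have e2 : deriv (fun t => cf a n j (γ t)) 0 = fderiv ℂ (cf a n j) (γ 0) (X (γ 0)) := e1
    rw [e2, hγ0]
    exact hpf
  · intro r hr hrr η' hη' q hq
    obtain ⟨θ, hθ⟩ := hloc r hr (hrr.trans_le hr₀l) η' hη' q hq
    refine ⟨θ, ?_⟩
    simp only [hDl2] at hθ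
    simp only [BE_eq]
    exact hθ

end Pool.Agent.H20.KL
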