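import Mathlib
import Pool.Agent.H20.KL.ECore
import Pool.Agent.H20.JL.VF
import Pool.Graph.R_pool_sql_team_seeded_64922ed1.X167.Sh.C

/-! # The linear law for the shift locus. This file adapts `X167/Sh/C.lean` of the library. -/

set_option autoImplicit false

open Topology Filter Metric Set Polynomial MeasureTheory
open Pool.Agent.H713R3.ZA Pool.Agent.H713R5.QJ
open Pool.Agent.X167.Sh

namespace Pool.Agent.H20.KL

open Pool.Agent.H20.JL (kq kq_nonneg)

open Classical in
/-- induction on the number of critical points which do not escape -/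
theorem claimE {a : ℂ} {n : ℕ} {B c₁ C₂ q : ℝ} (hc₁ : 0 < c₁) (hC₂ : 0 < C₂) (hq : q = C₂ / c₁)
    (hcore : ∀ (x₁ : PE n) (s : ℝ), 0 < s →
      (∀ x : PE n, Dl a n x₁ x ≤ s ^ 2 → x ∈ ball (0 : PE n) B) →
      volume {z : ℂ | ¬ Esc (fx a n x₁) z} < ENNReal.ofReal (c₁ * s) →
      (∃ j : Fin n, ¬ Esc (fx a n x₁) (x₁ (some j))) →
      ∃ x : PE n, Dl a n x₁ x < s ^ 2 ∧
        volume {z : ℂ | ¬ Esc (fx a n x) z} < ENNReal.ofReal (C₂ * s) ∧
        (∀ i : Fin n, Esc (fx a n x₁) (x₁ (some i)) → Esc (fx a n x) (x (some i))) ∧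
        ∃ j : Fin n, ¬ Esc (fx a n x₁) (x₁ (some j)) ∧ Esc (fx a n x) (x (some j)))
    (m : ℕ) : ∀ (x : PE n) (s : ℝ), 0 < s →
      (Finset.univ.filter (fun i : Fin n => ¬ Esc (fx a n x) (x (some i)))).card ≤ m →
      volume {z : ℂ | ¬ Esc (fx a n x) z} < ENNReal.ofReal (c₁ * s) →
      (∀ y : PE n, (∀ j : ℕ, ‖(fam a n y).coeff j - (fam a n x).coeff j‖ ≤
        kq q m * s) → y ∈ ball (0 : PE n) B) →
      ∃ z : PE n, (∀ i : Fin n, Esc (fx a n z) (z (some i))) ∧
        ∀ j : ℕ, ‖(fam a n z).coeff j - (fam a n x).coeff j‖ ≤ kq q m * s := by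
  have hq0 : 0 < q := by rw [hq]; positivity
  induction m with
  | zero =>
    intro x s hs hcard hvol hR
    refine ⟨x, ?_, ?_⟩
    · intro i
      by_contra hi
      have : i ∈ Finset.univ.filter (fun i : Fin n => ¬ Esc (fx a n x) (x (some i))) := by
        rw [Finset.mem_filter]
        exact ⟨Finset.mem_univ _, hi⟩
      have h2 := Finset.card_pos.2 ⟨i, this⟩
      omega
    · intro j
      rw [sub_self, norm_zero]
      exact mul_nonneg (kq_nonneg hq0.le _) hs.le
  | succ m ih =>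
    intro x s hs hcard hvol hR
    have hkm := kq_nonneg hq0.le m
    have hkk : kq q (m + 1) = 1 + q * kq q m := rfl
    have hkq : 0 ≤ q * kq q m * s := by positivity
    by_cases hall : ∀ i : Fin n, Esc (fx a n x) (x (some i))
    · refine ⟨x, hall, ?_⟩
      intro j
      rw [sub_self, norm_zero]
      exact mul_nonneg (kq_nonneg hq0.le _) hs.le
    · push Not at hall
      have hsq : Real.sqrt (s ^ 2) = s := Real.sqrt_sq hs.le
      obtain ⟨x', hD, hvol', hgood, j₀, hj₀, hj₀'⟩ := hcore x s hs (by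
        intro y hy
        apply hR
        intro j
        refine (TVFAM.coeff_of_Dl a n x y hy j).trans ?_
        rw [hkk, hsq]
        linarith) hvol hall
      have hcard' : (Finset.univ.filter
          (fun i : Fin n => ¬ Esc (fx a n x') (x' (some i)))).card ≤ m := by
        have hlt : (Finset.univ.filter
            (fun i : Fin n => ¬ Esc (fx a n x') (x' (some i)))).card <
            (Finset.univ.filter (fun i : Fin n => ¬ Esc (fx a n x) (x (some i)))).card := by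
          apply Finset.card_lt_card
          rw [Finset.ssubset_iff_of_subset]
          · refine ⟨j₀, ?_, ?_⟩
            · rw [Finset.mem_filter]
              exact ⟨Finset.mem_univ _, hj₀⟩
            · rw [Finset.mem_filter]
              rintro ⟨-, h⟩
              exact h hj₀'
          · intro i hi
            rw [Finset.mem_filter] at hi ⊢
            refine ⟨Finset.mem_univ _, ?_⟩
            intro h
            exact hi.2 (hgood i h)
        omega
      have hx'c : ∀ j : ℕ, ‖(fam a n x').coeff j - (fam a n x).coeff j‖ ≤ s := by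
        intro j
        have := TVFAM.coeff_of_Dl a n x x' hD.le j
        rwa [hsq] at this
      obtain ⟨z, hz, hzc⟩ := ih x' (q * s) (by positivity) hcard' (by
        have : c₁ * (q * s) = C₂ * s := by rw [hq]; field_simp
        rw [this]
        exact hvol') (by
        intro y hy
        apply hR
        intro j
        have h1 := hy j
        have h2 := hx'c j
        have h3 : ‖(fam a n y).coeff j - (fam a n x).coeff j‖ ≤
            ‖(fam a n y).coeff j - (fam a n x').coeff j‖ +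
              ‖(fam a n x').coeff j - (fam a n x).coeff j‖ := by
          have := norm_add_le ((fam a n y).coeff j - (fam a n x').coeff j)
            ((fam a n x').coeff j - (fam a n x).coeff j)
          rwa [sub_add_sub_cancel] at this
        rw [hkk]
        linarith)
      refine ⟨z, hz, ?_⟩
      intro j
      have h1 := hzc j
      have h2 := hx'c j
      have h3 : ‖(fam a n z).coeff j - (fam a n x).coeff j‖ ≤
          ‖(fam a n z).coeff j - (fam a n x').coeff j‖ +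
            ‖(fam a n x').coeff j - (fam a n x).coeff j‖ := by
        have := norm_add_le ((fam a n z).coeff j - (fam a n x').coeff j)
          ((fam a n x').coeff j - (fam a n x).coeff j)
        rwa [sub_add_sub_cancel] at this
      rw [hkk]
      linarith

theorem vfamE (n : ℕ) (A' : ℝ) (hn : 1 ≤ n) (hA' : 0 < A') : ∃ C : ℝ, 0 < C ∧
    ∀ (x₁ : PE n) (s : ℝ), (∀ j : ℕ, ‖(fam 1 n x₁).coeff j‖ ≤ A') → 0 < s →
      volume {z : ℂ | ¬ Esc (fx 1 n x₁) z} < ENNReal.ofReal s →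
      ∃ x : PE n, (∀ j : ℕ, ‖(fam 1 n x).coeff j - (fam 1 n x₁).coeff j‖ ≤ C * s) ∧
        ∀ i : Fin n, Esc (fx 1 n x) (x (some i)) := by
  classical
  obtain ⟨c₁, C₂, hc₁, hC₂, hc⟩ := core_stepE hh 1 n ((A' + 1) / ‖(1 : ℂ)‖ + (A' + 1) + 2)
    one_ne_zero hn (by positivity)
  obtain ⟨q, hq⟩ : ∃ q : ℝ, q = C₂ / c₁ := ⟨_, rfl⟩
  have hq0 : 0 < q := by rw [hq]; positivity
  have hκ := kq_nonneg hq0.le n
  obtain ⟨K, hK⟩ : ∃ K : ℝ, K = kq q n / c₁ := ⟨_, rfl⟩
  have hK0 : 0 ≤ K := by rw [hK]; positivity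
  refine ⟨(1 + 5 + A') * K + 1, by positivity, ?_⟩
  intro x₁ s hcoef hs hvol
  have hs' : 0 < s / c₁ := by positivity
  have hKs : kq q n * (s / c₁) = K * s := by rw [hK]; ring
  by_cases hsmall : K * s ≤ 1
  · obtain ⟨z, hz, hzc⟩ := claimE hc₁ hC₂ hq hc n x₁ (s / c₁) hs' (by
      refine (Finset.card_le_univ _).trans ?_
      simp) (by
      have : c₁ * (s / c₁) = s := by
        field_simp
      rw [this]
      exact hvol) (by
      intro y hy
      rw [hKs] at hy
      apply TVFAM.bdd n one_ne_zero (by positivity)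
      intro j _
      have h1 := (hy j).trans hsmall
      have h2 := hcoef j
      have h4 : ‖(fam 1 n y).coeff j‖ ≤
          ‖(fam 1 n y).coeff j - (fam 1 n x₁).coeff j‖ + ‖(fam 1 n x₁).coeff j‖ := by
        have := norm_add_le ((fam 1 n y).coeff j - (fam 1 n x₁).coeff j) ((fam 1 n x₁).coeff j)
        rwa [sub_add_cancel] at this
      linarith)
    refine ⟨z, ?_, hz⟩
    intro j
    refine (hzc j).trans ?_
    rw [hKs]
    apply mul_le_mul_of_nonneg_right _ hs.le
    nlinarith [mul_nonneg hK0 hA'.le]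
  · push Not at hsmall
    refine ⟨x4 n, ?_, esc_x4 n hn⟩
    intro j
    have h1 : ‖(fam 1 n (x4 n)).coeff j - (fam 1 n x₁).coeff j‖ ≤ 5 + A' := by
      refine (norm_sub_le _ _).trans ?_
      exact add_le_add (coeff_x4_le n j) (hcoef j)
    refine h1.trans ?_
    have h3 : (5 + A') * 1 ≤ (5 + A') * (K * s) :=
      mul_le_mul_of_nonneg_left hsmall.le (by positivity)
    have h4 : 0 ≤ K * s := mul_nonneg hK0 hs.le
    nlinarith

theorem mainE1 (n : ℕ) (A : ℝ) (hn : 1 ≤ n) (hA : 1 ≤ A) : ∃ C : ℝ, 0 < C ∧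
    ∀ T : ℂ[X], T.natDegree = n + 1 →
    (∀ j : ℕ, ‖T.coeff j‖ ≤ A) → 1 / A ≤ ‖T.leadingCoeff‖ →
    volume {z : ℂ | ¬ Esc (ev T) z} < ⊤ ∧
    ∀ ε : ℝ, C * (volume {z : ℂ | ¬ Esc (ev T) z}).toReal < ε →
      ∃ S : ℂ[X], S.natDegree = T.natDegree ∧ S.leadingCoeff = T.leadingCoeff ∧
        (∀ j : ℕ, ‖S.coeff j - T.coeff j‖ < ε) ∧
        ∀ c : ℂ, (derivative S).eval c = 0 → Esc (ev S) c := by
  have hA0 : 0 < A := by linarith
  obtain ⟨C₁, hC₁, hV1⟩ := vfamE n (A ^ (n + 2) * (A + 1)) hn (by positivity)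
  refine ⟨A ^ (n + 4) * C₁, by positivity, ?_⟩
  intro T hT hTA hTl
  have hfin := K_fin T (by omega)
  refine ⟨hfin, ?_⟩
  intro ε hε
  obtain ⟨ar, har⟩ : ∃ ar : ℝ, ar = (volume {z : ℂ | ¬ Esc (ev T) z}).toReal := ⟨_, rfl⟩
  have har0 : 0 ≤ ar := by rw [har]; exact ENNReal.toReal_nonneg
  have hvol : volume {z : ℂ | ¬ Esc (ev T) z} = ENNReal.ofReal ar := by
    rw [har, ENNReal.ofReal_toReal hfin.ne]
  rw [← har] at hε
  have hε0 : 0 < ε := lt_of_le_of_lt (by positivity) hε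
  -- the small number
  obtain ⟨e, he0, he⟩ : ∃ e : ℝ, 0 < e ∧ A ^ (n + 4) * C₁ * (ar + e) < ε := by
    have hc : Continuous (fun e : ℝ => A ^ (n + 4) * C₁ * (ar + e)) := by
      fun_prop
    have h1 : Tendsto (fun e : ℝ => A ^ (n + 4) * C₁ * (ar + e)) (𝓝 0)
        (𝓝 (A ^ (n + 4) * C₁ * ar)) := by
      have := hc.tendsto 0
      simpa using this
    have h2 := h1.eventually (gt_mem_nhds hε)
    rw [Metric.eventually_nhds_iff] at h2
    obtain ⟨δ, hδ, h3⟩ := h2
    refine ⟨δ / 2, by linarith, h3 ?_⟩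
    rw [dist_zero_right, Real.norm_eq_abs, abs_of_pos (by linarith)]
    linarith
  -- the scaling
  obtain ⟨l, hl⟩ := IsAlgClosed.exists_pow_nat_eq T.leadingCoeff (by omega : 0 < n)
  have hTl0 : T.leadingCoeff ≠ 0 := by
    rw [← norm_pos_iff]
    exact lt_of_lt_of_le (by positivity) hTl
  have hl0 : l ≠ 0 := by
    rintro rfl
    rw [zero_pow (by omega)] at hl
    exact hTl0 hl.symm
  have hln : ‖l‖ ^ n = ‖T.leadingCoeff‖ := by rw [← norm_pow, hl]
  have hlA : ‖l‖ ≤ A := VFIN.le_of_pow hA hn (by rw [hln]; exact hTA _)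
  have hlA' : ‖l‖⁻¹ ≤ A := by
    apply VFIN.le_of_pow hA hn
    rw [inv_pow, hln]
    have h1 : 0 < ‖T.leadingCoeff‖ := norm_pos_iff.2 hTl0
    rw [inv_le_comm₀ h1 hA0, ← one_div]
    exact hTl
  have hlp : 0 < ‖l‖ := norm_pos_iff.2 hl0
  -- the monic polynomial
  obtain ⟨k1, k2, -, -, -⟩ := scl_holds l T hl0
  have hTtop : T.coeff (n + 1) = T.leadingCoeff := by
    rw [Polynomial.leadingCoeff, hT]
  have hS2top : (sc l T).coeff (n + 1) = 1 := by
    rw [k2, hTtop, ← hl, pow_succ, inv_pow]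
    field_simp
  obtain ⟨x₁, hx₁⟩ := surj_holds n (sc l T) hn (by rw [k1, hT])
  rw [hS2top] at hx₁
  have hfx : fx 1 n x₁ = ev (sc l T) := by
    funext w
    unfold fx ev
    rw [hx₁]
  have hcoef : ∀ j, ‖(fam 1 n x₁).coeff j‖ ≤ A ^ (n + 2) * (A + 1) := by
    intro j
    rw [hx₁]
    rcases Nat.lt_or_ge (n + 1) j with hj | hj
    · rw [coeff_eq_zero_of_natDegree_lt (by rw [k1, hT]; exact hj), norm_zero]
      positivity
    · rw [k2, norm_mul, norm_mul, norm_pow, norm_inv]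
      have h1 : ‖l‖ * ‖l‖⁻¹ ^ j ≤ A ^ (n + 2) := by
        calc ‖l‖ * ‖l‖⁻¹ ^ j ≤ A * A ^ j :=
              mul_le_mul hlA (pow_le_pow_left₀ (by positivity) hlA' _) (by positivity) hA0.le
          _ = A ^ (j + 1) := by rw [pow_succ]; ring
          _ ≤ A ^ (n + 2) := pow_le_pow_right₀ hA (by omega)
      exact mul_le_mul h1 (by linarith [hTA j]) (norm_nonneg _) (by positivity)
  obtain ⟨s, hs⟩ : ∃ s : ℝ, s = A ^ 2 * (ar + e) := ⟨_, rfl⟩
  have hs0 : 0 < s := by
    rw [hs]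
    positivity
  have hvol2 : volume {z : ℂ | ¬ Esc (fx 1 n x₁) z} < ENNReal.ofReal s := by
    rw [hfx, vol_sc hl0, hvol]
    calc ENNReal.ofReal (‖l‖ ^ 2) * ENNReal.ofReal ar
        ≤ ENNReal.ofReal (A ^ 2) * ENNReal.ofReal ar :=
          mul_le_mul' (ENNReal.ofReal_le_ofReal (pow_le_pow_left₀ hlp.le hlA 2)) le_rfl
      _ = ENNReal.ofReal (A ^ 2 * ar) := (ENNReal.ofReal_mul (by positivity)).symm
      _ < ENNReal.ofReal s := by
          rw [ENNReal.ofReal_lt_ofReal_iff (by positivity), hs]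
          exact mul_lt_mul_of_pos_left (by linarith) (by positivity)
  obtain ⟨x, hx1, hx2⟩ := hV1 x₁ s hcoef hs0 hvol2
  -- the result
  obtain ⟨m1, m2, -, m4, -⟩ := scl_holds l⁻¹ (fam 1 n x) (inv_ne_zero hl0)
  have hdeg : (sc l⁻¹ (fam 1 n x)).natDegree = n + 1 := by
    rw [m1, natDegree_fam one_ne_zero]
  refine ⟨sc l⁻¹ (fam 1 n x), by rw [hdeg, hT], ?_, ?_, ?_⟩
  · rw [Polynomial.leadingCoeff, hdeg, m2, inv_inv, coeff_fam_top, mul_one, pow_succ, ← hl]
    field_simp
  · intro j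
    rcases Nat.lt_or_ge (n + 1) j with hj | hj
    · rw [coeff_eq_zero_of_natDegree_lt (by rw [hdeg]; exact hj),
        coeff_eq_zero_of_natDegree_lt (by rw [hT]; exact hj), sub_zero, norm_zero]
      exact hε0
    · have e1 : (sc l⁻¹ (fam 1 n x)).coeff j - T.coeff j =
          (l⁻¹ * l ^ j) * ((fam 1 n x).coeff j - (fam 1 n x₁).coeff j) := by
        rw [m2, hx₁, k2, inv_inv, mul_sub]
        congr 1
        have h1 : l⁻¹ * l ^ j * (l * l⁻¹ ^ j * T.coeff j) =
            (l⁻¹ * l) * (l ^ j * l⁻¹ ^ j) * T.coeff j := by ring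
        rw [h1, inv_mul_cancel₀ hl0, ← mul_pow, mul_inv_cancel₀ hl0, one_pow, one_mul, one_mul]
      have e2 : ‖(sc l⁻¹ (fam 1 n x)).coeff j - T.coeff j‖ ≤ A ^ (n + 2) * (C₁ * s) := by
        rw [e1, norm_mul, norm_mul, norm_inv, norm_pow]
        have h1 : ‖l‖⁻¹ * ‖l‖ ^ j ≤ A ^ (n + 2) := by
          calc ‖l‖⁻¹ * ‖l‖ ^ j ≤ A * A ^ j :=
                mul_le_mul hlA' (pow_le_pow_left₀ hlp.le hlA _) (by positivity) hA0.le
            _ = A ^ (j + 1) := by rw [pow_succ]; ring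
            _ ≤ A ^ (n + 2) := pow_le_pow_right₀ hA (by omega)
        exact mul_le_mul h1 (hx1 j) (norm_nonneg _) (by positivity)
      have e3 : A ^ (n + 2) * (C₁ * s) = A ^ (n + 4) * C₁ * (ar + e) := by
        rw [hs]
        ring
      rw [e3] at e2
      linarith
  · intro c hc
    have h1 : l⁻¹ * (l * c) = c := by rw [← mul_assoc, inv_mul_cancel₀ hl0, one_mul]
    have h2 := (m4 (l * c)).1 (by rw [h1]; exact hc)
    have h3 : deriv (fx 1 n x) (l * c) = 0 := by
      have : fx 1 n x = fun w => (fam 1 n x).eval w := rfl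
      rw [this, Polynomial.deriv]
      exact h2
    obtain ⟨i, hi⟩ := exists_crit one_ne_zero h3
    have h4 := hx2 i
    rw [← hi] at h4
    have h5 := (esc_iff (inv_ne_zero hl0) (fam 1 n x) (l * c)).2 h4
    rwa [h1] at h5

/-- **Linear law for the distance to the shift locus.** -/
theorem mainE (d : ℕ) (A : ℝ) (hd : 2 ≤ d) (hA : 0 < A) : ∃ C : ℝ, 0 < C ∧
    ∀ T : ℂ[X], T.natDegree = d →
    (∀ j : ℕ, ‖T.coeff j‖ ≤ A) → 1 / A ≤ ‖T.leadingCoeff‖ →
    volume {z : ℂ | ¬ Esc (ev T) z} < ⊤ ∧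
    ∀ ε : ℝ, C * (volume {z : ℂ | ¬ Esc (ev T) z}).toReal < ε →
      ∃ S : ℂ[X], S.natDegree = T.natDegree ∧ S.leadingCoeff = T.leadingCoeff ∧
        (∀ j : ℕ, ‖S.coeff j - T.coeff j‖ < ε) ∧
        ∀ c : ℂ, (derivative S).eval c = 0 → Esc (ev S) c := by
  obtain ⟨n, rfl⟩ : ∃ n, d = n + 1 := ⟨d - 1, by omega⟩
  obtain ⟨C, hC, h⟩ := mainE1 n (max A 1) (by omega) (le_max_right _ _)
  refine ⟨C, hC, fun T hT hTA hTl => h T hT (fun j => (hTA j).trans (le_max_left _ _)) ?_⟩
  exact (one_div_le_one_div_of_le hA (le_max_left _ _)).trans hTl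

end Pool.Agent.H20.KL
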